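import Mathlib
import Pool.Agent.R60.FK.BranchF

/-!
# Form (ii) in every connected mutation-infinite class without reddening sequence

Let `Q` be connected, mutation-infinite and without reddening sequence. Then there are a word `w₀`
and a vertex `k` such that form (ii) holds for all quivers obtained from `Q` by mutating along
`w₀, k, w₁` where `k, w₁` is reduced (no two consecutive equal letters), that is, for all quivers
beyond one edge of the exchange tree; and form (ii) holds for infinitely many quivers of the class.
All these quivers are forks (Warkentin's theorem, proved in `Pool.Agent.R60.FK.Main`).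
-/

namespace Pool.Agent.Results.MP_0170c4_co.BranchFormII

open Pool.Agent.R60.SC Pool.Agent.R60.FK

/-- Form (ii) holds beyond an edge of the exchange tree, and for infinitely many quivers of the
mutation class. -/
theorem result : ∀ (V : Type) [Fintype V] [DecidableEq V] (Q : Quiv V),
    (∀ X : Set V, X.Nonempty → X ≠ Set.univ →
      ∃ x ∈ X, ∃ y ∉ X, 0 < Q.arr x y ∨ 0 < Q.arr y x) →
    Set.Infinite {Q' : Quiv V | ∃ w : List V, Q' = mutWord w Q} →
    (¬ ∃ w : List V, Reddening w Q) →
    (∃ (w₀ : List V) (k : V), ∀ w₁ : List V, List.IsChain (· ≠ ·) (k :: w₁) →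
      FormII (mutWord (w₀ ++ k :: w₁) Q)) ∧
    Set.Infinite {Q' : Quiv V | (∃ w : List V, Q' = mutWord w Q) ∧ FormII Q'} := by
  intro V _ _ Q h1 h2 h3
  obtain ⟨a, b⟩ := branches V Q h3 h1 h2
  exact ⟨b, a⟩

end Pool.Agent.Results.MP_0170c4_co.BranchFormII
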