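import Mathlib
import Pool.Agent.R60.FK.GreenQ

/-!
# Form (ii) for forks

Let `Q` be a fork without reddening sequence. Then `Red Q = |V| - 1`, and every vertex `v` of `Q`
is the last remaining green vertex after some green sequence attaining `Red Q`.

Proof. Let `r` be the point of return. If `v = r`, mutate at the other vertices in the order of the
acyclic quiver `Q - r`. If `v ≠ r`, mutate first at `v`; then `μ_v Q` is a fork with point of return
`v`, so `μ_v Q - v` is acyclic; mutate at its vertices, in its order. Each of them is green when it
is mutated and red afterwards, and `v` must be green at the end since there is no reddening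
sequence.
-/

namespace Pool.Agent.Results.MP_0170c4_co.ForkFormII

open Pool.Agent.R60.SC Pool.Agent.R60.FK

/-- Form (ii) holds for every fork without reddening sequence. -/
theorem result : ∀ (V : Type) [Fintype V] [DecidableEq V] (Q : Quiv V) (r : V),
    IsFork Q r → (¬ ∃ w : List V, Reddening w Q) → FormII Q := by
  intro V _ _ Q r h hno
  exact GQ.forkM_formII Q r (GQ.fork_of Q r h) hno

end Pool.Agent.Results.MP_0170c4_co.ForkFormII
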