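import Mathlib
import Pool.Agent.R60.FK.RelQ

/-!
# A criterion for the last green vertex

Let `Q` be a quiver without reddening sequence, `v` a vertex and `s` a green sequence after which
all vertices other than `v` are green (for instance the empty sequence, or `s = (v)`). If the full
subquiver of `μ_s Q` on the vertices other than `v` has a maximal green sequence, then
`Red Q = |V| - 1` and `v` is the last remaining green vertex after some green sequence attaining
`Red Q`.
-/

namespace Pool.Agent.Results.MP_0170c4_co.LastGreenCriterion

open Pool.Agent.R60.SC Pool.Agent.R60.FK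

/-- The criterion. -/
theorem result : ∀ (V : Type) [Fintype V] [DecidableEq V] (Q : Quiv V),
    (¬ ∃ w : List V, Reddening w Q) → ∀ (v : V) (s : List V), GreenSeq s Q →
    (∀ i, i ≠ v → IsGreen (afterWord s Q) i) → MGSOff (mutWord s Q) v →
    redSize Q = Fintype.card V - 1 ∧
      ∃ w : List V, GreenSeq w Q ∧ numRed w Q = redSize Q ∧ LastGreen w Q v := by
  intro V _ _ Q hno v s hs hg hm
  obtain ⟨w, hw, hl⟩ := RQ.last_of Q hno v s hs hg hm
  obtain ⟨h1, h2⟩ := RQ.numRed_redSize Q hno hw hl
  exact ⟨h1, w, hw, h2, hl⟩

end Pool.Agent.Results.MP_0170c4_co.LastGreenCriterion
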