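import Mathlib
import Pool.Agent.R60.FK.Main

/-!
# Red sizes of connected mutation-infinite quivers without reddening sequence

Let `Q` be a connected quiver on a finite vertex set `V` whose mutation class is infinite and which
has no reddening sequence. Then `uRed Q = |V| - 1` (form (iii)), and every vertex `v` of `Q` is the
last remaining green vertex after some general reddening sequence (form (iv)).

Proof. (1) The set of vertices `v` such that some word makes all vertices other than `v` red is
invariant under mutation of `Q`: the frozen rows `j ≠ k` of the framed quivers of `Q` and `μ_k Q`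
agree, by sign coherence they determine all colours but one, and that one can be repaired by one
further mutation. (2) Every connected mutation-infinite quiver is mutation-equivalent to a fork
(Warkentin's theorem, proved here from scratch). (3) If `F` is a fork with point of return `r` then
`F` without `r` is acyclic, so that `r` can be the last green vertex; and for `k ≠ r` the quiver
`μ_k F` is a fork with point of return `k`, so that `k` can be the last green vertex for `μ_k F`,
hence for `F` and for `Q` by (1). Sign coherence of c-vectors is proved in
`Pool.Agent.R60.SC.Main`, nothing is assumed.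
-/

namespace Pool.Agent.Results.MP_0170c4_co.MutationInfinite

open Pool.Agent.R60.SC

/-- Forms (iii) and (iv) for all connected mutation-infinite quivers. -/
theorem result : ∀ (V : Type) [Fintype V] [DecidableEq V] (Q : Quiv V),
    (∀ X : Set V, X.Nonempty → X ≠ Set.univ →
      ∃ x ∈ X, ∃ y ∉ X, 0 < Q.arr x y ∨ 0 < Q.arr y x) →
    Set.Infinite {Q' : Quiv V | ∃ w : List V,
      Q' = w.foldl (fun R k => R.mut (fun _ => false) k) Q} →
    (¬ ∃ w : List V, ∀ i, IsRed (afterWord w Q) i) →
    IsGreatest (Set.range fun w : List V => numRed w Q) (uRed Q) ∧
    uRed Q = Fintype.card V - 1 ∧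
      ∀ v : V, ∃ w : List V, numRed w Q = Fintype.card V - 1 ∧ IsGreen (afterWord w Q) v ∧
        ¬ IsRed (afterWord w Q) v ∧ ∀ i, i ≠ v → IsRed (afterWord w Q) i := by
  intro V _ _ Q h1 h2 h3
  exact ⟨uRed_isGreatest Q, Pool.Agent.R60.FK.quiv V Q h1 h2 h3⟩

end Pool.Agent.Results.MP_0170c4_co.MutationInfinite
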